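import Pool.Agent.Lib.MP_52f683_gt.F.Main

set_option autoImplicit false

open Pool.Agent.Lib.MP_52f683_gt in
/-- Every thin space has only finitely many points. -/
theorem Pool.Agent.Results.MP_52f683_gt.AllFinite.result
    (S : Type*) [TopologicalSpace S]
    (thin : ∀ A B : Set S, Nonempty (A ≃ₜ B) → ∃ h : S ≃ₜ S, ⇑h '' A = B) : Finite S := by
  by_contra hn
  haveI : Infinite S := not_finite_iff_infinite.1 hn
  exact Thin.false (S := S) thin
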